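import Pool.Agent.PLX.StmtsB

/-!
Squad PLX, row DMN: the lines have at least half of the rank.
-/

set_option autoImplicit false

namespace Pool.Agent.PLX.H36

open Module

/-- two applications of the covering lemma -/
theorem num1 {j p P c1 c2 : ℝ} {d α : ℕ} (hp : 1 ≤ p) (hP : 1 ≤ P)
    (h1 : j ≤ (1 + 2 * 1 / (1 / p)) ^ d * c1)
    (h2 : c1 ≤ (1 + 2 * (1 / p) / (1 / P)) ^ α * c2) (hc1 : 0 ≤ c1) (hc2 : 0 ≤ c2) :
    j ≤ (3 * p) ^ d * (3 * P) ^ α * c2 := by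
  have hp0 : 0 < p := by linarith
  have hP0 : 0 < P := by linarith
  have e1 : 1 + 2 * 1 / (1 / p) ≤ 3 * p := by
    have : 2 * 1 / (1 / p) = 2 * p := by field_simp
    rw [this]
    linarith
  have e2 : 1 + 2 * (1 / p) / (1 / P) ≤ 3 * P := by
    have e3 : 2 * (1 / p) / (1 / P) = 2 * (P / p) := by field_simp
    have e4 : P / p ≤ P := div_le_self hP0.le hp
    rw [e3]
    linarith
  have k1 : (1 + 2 * 1 / (1 / p)) ^ d ≤ (3 * p) ^ d := pow_le_pow_left₀ (by positivity) e1 d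
  have k2 : (1 + 2 * (1 / p) / (1 / P)) ^ α ≤ (3 * P) ^ α :=
    pow_le_pow_left₀ (by positivity) e2 α
  calc j ≤ (1 + 2 * 1 / (1 / p)) ^ d * c1 := h1
    _ ≤ (3 * p) ^ d * c1 := mul_le_mul_of_nonneg_right k1 hc1
    _ ≤ (3 * p) ^ d * ((3 * P) ^ α * c2) :=
        mul_le_mul_of_nonneg_left (h2.trans (mul_le_mul_of_nonneg_right k2 hc2)) (by positivity)
    _ = (3 * p) ^ d * (3 * P) ^ α * c2 := by ring

/-- the contradiction -/
theorem num2 {j L p P Z n N1 N2 : ℝ} {d α b c : ℕ} (hj : 0 < j) (hL : 2 ≤ L) (hp : p = L ^ c)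
    (hP1 : 1 ≤ P) (hZ : Z = (3 * p) ^ d * (3 * P) ^ α) (hn : 2 ≤ n) (hα : 2 * α < d)
    (h1 : (n - 1) * (j / Z) ^ 2 ≤ 9 * N2) (h2 : N2 ≤ (4 * ((d : ℝ) + 2) * (2 * (1 / P))) ^ d * N1)
    (h3 : N1 ≤ L ^ b * n * j ^ 2) :
    P ≤ 18 * (648 * ((d : ℝ) + 2)) ^ d * L ^ (b + 2 * c * d) := by
  have hL0 : 0 < L := by linarith
  have hp0 : 0 < p := by rw [hp]; positivity
  have hP0 : 0 < P := by linarith
  have hZ0 : 0 < Z := by rw [hZ]; positivity
  have hd0 : (0 : ℝ) ≤ d := Nat.cast_nonneg d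
  have k1 : (n / 2) * (j / Z) ^ 2 ≤ 9 * ((8 * ((d : ℝ) + 2) / P) ^ d * (L ^ b * n * j ^ 2)) := by
    calc (n / 2) * (j / Z) ^ 2 ≤ (n - 1) * (j / Z) ^ 2 :=
          mul_le_mul_of_nonneg_right (by linarith) (by positivity)
      _ ≤ 9 * N2 := h1
      _ ≤ 9 * ((4 * ((d : ℝ) + 2) * (2 * (1 / P))) ^ d * (L ^ b * n * j ^ 2)) :=
          mul_le_mul_of_nonneg_left (h2.trans (mul_le_mul_of_nonneg_left h3 (by positivity)))
            (by norm_num)
      _ = 9 * ((8 * ((d : ℝ) + 2) / P) ^ d * (L ^ b * n * j ^ 2)) := by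
          congr 3
          field_simp
          ring
  have k2 : (n * j ^ 2) * (1 / (2 * Z ^ 2)) ≤
      (n * j ^ 2) * (9 * (8 * ((d : ℝ) + 2)) ^ d * L ^ b / P ^ d) := by
    calc (n * j ^ 2) * (1 / (2 * Z ^ 2)) = (n / 2) * (j / Z) ^ 2 := by
          field_simp
      _ ≤ 9 * ((8 * ((d : ℝ) + 2) / P) ^ d * (L ^ b * n * j ^ 2)) := k1
      _ = (n * j ^ 2) * (9 * (8 * ((d : ℝ) + 2)) ^ d * L ^ b / P ^ d) := by
          rw [div_pow]
          field_simp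
  have k3 := le_of_mul_le_mul_left k2 (by positivity)
  have k4 : P ^ d ≤ 18 * (8 * ((d : ℝ) + 2)) ^ d * L ^ b * Z ^ 2 := by
    rw [div_le_div_iff₀ (by positivity) (by positivity)] at k3
    nlinarith
  have k5 : Z ^ 2 = 9 ^ d * p ^ (2 * d) * 9 ^ α * P ^ (2 * α) := by
    have a1 : ((3 * p) ^ d) ^ 2 = 9 ^ d * p ^ (2 * d) := by
      rw [← pow_mul, mul_comm d 2, mul_pow, pow_mul]
      norm_num
    have a2 : ((3 * P) ^ α) ^ 2 = 9 ^ α * P ^ (2 * α) := by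
      rw [← pow_mul, mul_comm α 2, mul_pow, pow_mul]
      norm_num
    rw [hZ, mul_pow, a1, a2]
    ring
  have k6 : P * P ^ (2 * α) ≤ P ^ d := by
    rw [← pow_succ']
    exact pow_le_pow_right₀ hP1 (by omega)
  have k7 : (9 : ℝ) ^ α ≤ 9 ^ d := pow_le_pow_right₀ (by norm_num) (by omega)
  have k8 : P * P ^ (2 * α) ≤
      (18 * (648 * ((d : ℝ) + 2)) ^ d * L ^ (b + 2 * c * d)) * P ^ (2 * α) := by
    calc P * P ^ (2 * α) ≤ P ^ d := k6
      _ ≤ 18 * (8 * ((d : ℝ) + 2)) ^ d * L ^ b * Z ^ 2 := k4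
      _ = 18 * (8 * ((d : ℝ) + 2)) ^ d * L ^ b * (9 ^ d * p ^ (2 * d) * P ^ (2 * α)) * 9 ^ α := by
          rw [k5]
          ring
      _ ≤ 18 * (8 * ((d : ℝ) + 2)) ^ d * L ^ b * (9 ^ d * p ^ (2 * d) * P ^ (2 * α)) * 9 ^ d :=
          mul_le_mul_of_nonneg_left k7 (by positivity)
      _ = (18 * (648 * ((d : ℝ) + 2)) ^ d * L ^ (b + 2 * c * d)) * P ^ (2 * α) := by
          have a1 : (648 * ((d : ℝ) + 2)) ^ d = (8 * ((d : ℝ) + 2)) ^ d * 9 ^ d * 9 ^ d := by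
            rw [← mul_pow, ← mul_pow]
            congr 1
            ring
          have a2 : L ^ (b + 2 * c * d) = L ^ b * p ^ (2 * d) := by
            rw [hp, ← pow_mul, ← pow_add]
            congr 1
            ring
          rw [a1, a2]
          ring
  exact le_of_mul_le_mul_right k8 (by positivity)

theorem dmn (hcov : CovStmt) (hslc : SlcStmt) (hgru : GruStmt) : DmnStmt := by
  intro d c b
  let K0 : ℕ := 18 * (648 * (d + 2)) ^ d + 16 * (d + 1)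
  refine ⟨K0 + (b + 2 * c * d) + c + 1, by omega, ?_⟩
  intro c' hc'
  refine ⟨2 + (2 + c) * d + (2 + c') * d, ?_⟩
  intro A _ _ E _ _ Φ f G Θ L j α hfdA hD hdA hL hj hppr hbs hΘ ht htot
  by_contra hcon
  have hα : 2 * α < d := by omega
  have hL0 : 0 < L := by linarith
  have hL1 : 1 ≤ L := by linarith
  have hp1 : (1 : ℝ) ≤ L ^ c := one_le_pow₀ hL1
  have hP1 : (1 : ℝ) ≤ L ^ c' := one_le_pow₀ hL1
  have hp0 : (0 : ℝ) < L ^ c := by linarith
  have hP0 : (0 : ℝ) < L ^ c' := by linarith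
  have hj0 : 0 < j := lt_of_lt_of_le (pow_pos hL0 _) hj
  have hd0 : (0 : ℝ) ≤ d := Nat.cast_nonneg d
  -- the size of `L ^ c'`
  have hPbig : (K0 : ℝ) * L ^ (b + 2 * c * d) < L ^ c' := by
    have e1 : (K0 : ℝ) < 2 ^ K0 := by exact_mod_cast Nat.lt_two_pow_self
    have e2 : (2 : ℝ) ^ K0 ≤ L ^ K0 := pow_le_pow_left₀ (by norm_num) hL K0
    have e3 : (K0 : ℝ) < L ^ K0 := e1.trans_le e2
    calc (K0 : ℝ) * L ^ (b + 2 * c * d) < L ^ K0 * L ^ (b + 2 * c * d) :=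
          mul_lt_mul_of_pos_right e3 (by positivity)
      _ = L ^ (K0 + (b + 2 * c * d)) := (pow_add L K0 (b + 2 * c * d)).symm
      _ ≤ L ^ c' := pow_le_pow_right₀ hL1 (by omega)
  have hK0 : (K0 : ℝ) = 18 * (648 * ((d : ℝ) + 2)) ^ d + 16 * ((d : ℝ) + 1) := by
    change (((18 * (648 * (d + 2)) ^ d + 16 * (d + 1) : ℕ)) : ℝ) = _
    push_cast
    ring
  have h16 : 16 * ((d : ℝ) + 1) ≤ L ^ c' := by
    have e1 : (1 : ℝ) ≤ L ^ (b + 2 * c * d) := one_le_pow₀ hL1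
    have e2 : (K0 : ℝ) * 1 ≤ K0 * L ^ (b + 2 * c * d) :=
      mul_le_mul_of_nonneg_left e1 (Nat.cast_nonneg _)
    have e3 : (0 : ℝ) ≤ 18 * (648 * ((d : ℝ) + 2)) ^ d := by positivity
    linarith
  have hr0 : 0 < 1 / L ^ c := by positivity
  have hr'0 : 0 < 1 / L ^ c' := by positivity
  have hr'1 : 1 / L ^ c' ≤ 1 := by
    rw [div_le_iff₀ hP0]
    linarith
  set Z : ℝ := (3 * L ^ c) ^ d * (3 * L ^ c') ^ α with hZ
  have hZ0 : 0 < Z := by positivity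
  have hq : ∀ t ∈ Θ, j / Z ≤ cnt f (lp Φ G t) (1 / L ^ c') := by
    intro t htt
    obtain ⟨h1, h2⟩ := ht t htt
    have k1 := hcov A E f (lp Φ G t) 1 (1 / L ^ c) d (hD.lp t) zero_le_one hr0 (by
      rw [← hdA]
      exact Submodule.finrank_le _)
    have k2 := hcov A E f (lp Φ G t) (1 / L ^ c) (1 / L ^ c') α (hD.lp t) hr0.le hr'0 h2
    have k3 := num1 hp1 hP1 (h1.trans k1) k2 (Nat.cast_nonneg _) (Nat.cast_nonneg _)
    rw [div_le_iff₀ hZ0]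
    linarith
  have hZj : 3 * Z ≤ j := by
    have e1 : (3 : ℝ) ≤ L ^ 2 := by nlinarith
    have e2 : 3 * L ^ c ≤ L ^ (2 + c) := by
      rw [pow_add]
      exact mul_le_mul_of_nonneg_right e1 hp0.le
    have e3 : 3 * L ^ c' ≤ L ^ (2 + c') := by
      rw [pow_add]
      exact mul_le_mul_of_nonneg_right e1 hP0.le
    have e4 : (3 * L ^ c) ^ d ≤ L ^ ((2 + c) * d) := by
      rw [pow_mul]
      exact pow_le_pow_left₀ (by positivity) e2 d
    have e5 : (3 * L ^ c') ^ α ≤ L ^ ((2 + c') * d) := by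
      calc (3 * L ^ c') ^ α ≤ (L ^ (2 + c')) ^ α := pow_le_pow_left₀ (by positivity) e3 α
        _ ≤ (L ^ (2 + c')) ^ d := pow_le_pow_right₀ (one_le_pow₀ hL1) (by omega)
        _ = L ^ ((2 + c') * d) := by rw [pow_mul]
    calc 3 * Z ≤ L ^ 2 * (L ^ ((2 + c) * d) * L ^ ((2 + c') * d)) :=
          mul_le_mul e1 (mul_le_mul e4 e5 (by positivity) (by positivity)) hZ0.le (by positivity)
      _ = L ^ (2 + (2 + c) * d + (2 + c') * d) := by
          rw [pow_add, pow_add]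
          ring
      _ ≤ j := hj
  have hq3 : 3 ≤ j / Z := by
    rw [le_div_iff₀ hZ0]
    exact hZj
  have hs := hslc A E Φ f G Θ (1 / L ^ c') (j / Z) hD hr'0.le hq3
    (hppr.mono (by linarith)) hq
  have hg := hgru A E f G d (1 / L ^ c') (2 * (1 / L ^ c')) 1 hD hr'0 (by linarith) (by
    have e1 : 8 * ((d : ℝ) + 1) * (2 * (1 / L ^ c')) = 16 * ((d : ℝ) + 1) / L ^ c' := by
      ring
    rw [e1, div_le_iff₀ hP0]
    linarith) (by rw [hbs, finrank_top]; exact hdA) (by rw [hbs]; exact le_top)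
  rw [one_pow, one_mul] at hg
  have hn2 : (2 : ℝ) ≤ Θ.card := by exact_mod_cast hΘ
  have key := num2 hj0 hL rfl hP1 hZ hn2 hα hs hg htot
  have e1 : 18 * (648 * ((d : ℝ) + 2)) ^ d ≤ K0 := by
    rw [hK0]
    have : 0 ≤ 16 * ((d : ℝ) + 1) := by positivity
    linarith
  have e2 : 18 * (648 * ((d : ℝ) + 2)) ^ d * L ^ (b + 2 * c * d) ≤
      K0 * L ^ (b + 2 * c * d) := mul_le_mul_of_nonneg_right e1 (by positivity)
  linarith

end Pool.Agent.PLX.H36
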