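import Pool.Agent.PLX.StmtsA

/-!
Squad PLX, row FLD: the operators are determined by the eigenvalues.
-/

set_option autoImplicit false

namespace Pool.Agent.PLX.H36

open Module

/-- a list of second components is lifted to a list of pairs -/
theorem lift_list {X Y : Type} (Q : Set (X × Y)) :
    ∀ l : List Y, (∀ y ∈ l, y ∈ Prod.snd '' Q) →
      ∃ L : List (X × Y), L.length = l.length ∧ (∀ q ∈ L, q ∈ Q) ∧ L.map Prod.snd = l := by
  intro l
  induction l with
  | nil => exact fun _ => ⟨[], rfl, by simp, rfl⟩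
  | cons y l ih =>
    intro h
    obtain ⟨L, h1, h2, h3⟩ := ih fun z hz => h z (List.mem_cons_of_mem _ hz)
    obtain ⟨q, hq, hqy⟩ := h y List.mem_cons_self
    refine ⟨q :: L, by simp [h1], ?_, by simp [h3, hqy]⟩
    intro p hp
    rcases List.mem_cons.1 hp with rfl | hp
    · exact hq
    · exact h2 p hp

theorem snd_prod {R : Type} [Ring R] (L : List (R × ℝ)) :
    L.prod.2 = (L.map Prod.snd).prod := by
  induction L with
  | nil => rfl
  | cons q L ih => rw [List.prod_cons, List.map_cons, List.prod_cons, Prod.snd_mul, ih]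

theorem fld (hgen : GenStmt) : FldStmt := by
  intro B _ _ Q k hfd hk H
  obtain ⟨μ, hμ, hl⟩ := hgen (Prod.snd '' Q) k hfd hk
  have hL : ∀ i : Fin k, ∃ L : List (Module.End ℚ B × ℝ), L.length ≤ k ∧ (∀ q ∈ L, q ∈ Q) ∧
      L.prod.2 = μ i := by
    intro i
    obtain ⟨l, h1, h2, h3⟩ := hl i
    obtain ⟨L, k1, k2, k3⟩ := lift_list Q l h2
    exact ⟨L, by omega, k2, by rw [snd_prod, k3, h3]⟩
  choose L hL1 hL2 hL3 using hL
  let w : Fin k → Module.End ℚ B × ℝ := fun i => (L i).prod
  have hw2 : ∀ i, (w i).2 = μ i := hL3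
  let U : Submodule ℚ (Module.End ℚ B × ℝ) := Submodule.span ℚ (Set.range w)
  -- short products are in the span
  have hU : ∀ l : List (Module.End ℚ B × ℝ), l.length ≤ k + 1 → (∀ q ∈ l, q ∈ Q) →
      l.prod ∈ U := by
    intro l hl1 hl2
    obtain ⟨n, hn0, hn⟩ := H (Fin.cons l.prod w) (by
      intro i
      refine Fin.cases ?_ (fun i => ?_) i
      · exact ⟨l, hl1, hl2, rfl⟩
      · exact ⟨L i, (hL1 i).trans (Nat.le_succ k), hL2 i, rfl⟩)
    rw [Fin.sum_univ_succ] at hn
    simp only [Fin.cons_zero, Fin.cons_succ] at hn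
    have hn1 : n 0 ≠ 0 := by
      intro h0
      rw [h0, zero_smul, zero_add] at hn
      have h2 := congrArg Prod.snd hn
      rw [Prod.snd_sum] at h2
      have h3 : ∑ i : Fin k, ((n i.succ : ℤ) : ℚ) • μ i = 0 := by
        refine Eq.trans (Finset.sum_congr rfl fun i _ => ?_) h2
        rw [Prod.smul_snd, hw2, Int.cast_smul_eq_zsmul]
      have h4 := Fintype.linearIndependent_iff.1 hμ _ h3
      refine hn0 (funext fun i => ?_)
      refine Fin.cases h0 (fun i => ?_) i
      exact_mod_cast h4 i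
    have h5 : (n 0 : ℚ) • l.prod ∈ U := by
      have h6 : (n 0 : ℚ) • l.prod = - ∑ i : Fin k, ((n i.succ : ℤ) : ℚ) • w i := by
        rw [Int.cast_smul_eq_zsmul]
        refine eq_neg_of_add_eq_zero_left ?_
        rw [← hn]
        refine congrArg _ (Finset.sum_congr rfl fun i _ => ?_)
        rw [Int.cast_smul_eq_zsmul]
      rw [h6]
      exact U.neg_mem (U.sum_mem fun i _ => U.smul_mem _ (Submodule.subset_span ⟨i, rfl⟩))
    have h7 : (n 0 : ℚ) ≠ 0 := by exact_mod_cast hn1
    have h8 := U.smul_mem (n 0 : ℚ)⁻¹ h5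
    rwa [smul_smul, inv_mul_cancel₀ h7, one_smul] at h8
  have h1U : (1 : Module.End ℚ B × ℝ) ∈ U := hU [] (by simp) (by simp)
  have hQU : ∀ q ∈ Q, ∀ u ∈ U, q * u ∈ U := by
    intro q hq u hu
    induction hu using Submodule.span_induction with
    | mem x hx =>
      obtain ⟨i, rfl⟩ := hx
      have := hU (q :: L i) (by simpa using hL1 i) (by
        intro p hp
        rcases List.mem_cons.1 hp with rfl | hp
        · exact hq
        · exact hL2 i p hp)
      rwa [List.prod_cons] at this
    | zero => rw [mul_zero]; exact U.zero_mem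
    | add x y _ _ hx hy => rw [mul_add]; exact U.add_mem hx hy
    | smul c x _ hx => rw [mul_smul_comm]; exact U.smul_mem c hx
  have hA : ∀ q ∈ Algebra.adjoin ℚ Q, ∀ u ∈ U, q * u ∈ U := by
    intro q hq
    induction hq using Algebra.adjoin_induction with
    | mem x hx => exact hQU x hx
    | algebraMap r =>
      intro u hu
      rw [← Algebra.smul_def]
      exact U.smul_mem r hu
    | add x y _ _ hx hy =>
      intro u hu
      rw [add_mul]
      exact U.add_mem (hx u hu) (hy u hu)
    | mul x y _ _ hx hy =>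
      intro u hu
      rw [mul_assoc]
      exact hx _ (hy u hu)
  intro q hq hq2
  have h1 := hA q hq 1 h1U
  rw [mul_one] at h1
  obtain ⟨c, hc⟩ := (Submodule.mem_span_range_iff_exists_fun ℚ).1 h1
  have h2 : ∑ i : Fin k, c i • μ i = 0 := by
    have h3 := congrArg Prod.snd hc
    rw [Prod.snd_sum, hq2] at h3
    rw [← h3]
    refine Finset.sum_congr rfl fun i _ => ?_
    rw [Prod.smul_snd, hw2]
  have h4 := Fintype.linearIndependent_iff.1 hμ _ h2
  rw [← hc]
  refine Finset.sum_eq_zero fun i _ => ?_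
  rw [h4 i, zero_smul]

end Pool.Agent.PLX.H36
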